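import Mathlib
import Pool.Agent.Lib_helper90.PNT.WienerIkehara

/-!
# For almost all `n` no small index `i` makes `prime(i)² + prime(n)² - 1` prime

For a fixed `c > 0` and a prime `ℓ ≡ 1 (mod 4c)`, `-c` is a nonzero square mod `ℓ`, so the large
primes `q` with `q² + c` prime avoid one of the `ℓ - 1` unit classes mod `ℓ`.  As `∑ 1/ℓ` over these
`ℓ` diverges, the primes `q` with `q² + c` prime lie, up to finitely many, in a small proportion of
the unit classes mod a suitable `M`, and the prime number theorem in arithmetic progressions shows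
that they have relative density `0` among the primes.
-/

set_option autoImplicit false

open Filter Topology ArithmeticFunction

namespace Pool.Agent.Results.MP_2ce44c_nt.AlmostAll

/-- the `i`-th prime, counted from `1`: `pr 1 = 2`, `pr 2 = 3`, `pr 3 = 5`, ... -/
noncomputable def pr (i : ℕ) : ℕ := Nat.nth Nat.Prime (i - 1)

/-! ### Primes of a residue class: the sum of the reciprocals diverges -/

/-- the sum of `log p` over the primes of a residue class in `(x, y]` -/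
noncomputable def bprT (q : ℕ) (a : ZMod q) (x y : ℝ) : ℝ :=
  ∑ p ∈ (Finset.Ioc ⌊x⌋₊ ⌊y⌋₊).filter (fun p : ℕ => p.Prime ∧ (p : ZMod q) = a), Real.log p

theorem bpr_sqrt (K : ℝ) (η : ℝ) (hη : 0 < η) :
    Tendsto (fun P : ℝ => K * Real.sqrt ((1 + η) * P) / P) atTop (𝓝 0) := by
  have h1 : Tendsto (fun P : ℝ => (K * Real.sqrt (1 + η)) * (Real.sqrt P)⁻¹) atTop (𝓝 0) := by
    have h2 : Tendsto (fun P : ℝ => (Real.sqrt P)⁻¹) atTop (𝓝 0) :=
      tendsto_inv_atTop_zero.comp Real.tendsto_sqrt_atTop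
    have h3 := h2.const_mul (K * Real.sqrt (1 + η))
    rwa [mul_zero] at h3
  refine h1.congr' ?_
  filter_upwards [eventually_gt_atTop (0 : ℝ)] with P hP
  rw [Real.sqrt_mul (by linarith), mul_div_assoc, mul_div_assoc, Real.sqrt_div_self, mul_assoc]

theorem bpr_lim {q : ℕ} [NeZero q] {a : ZMod q} (ha : IsUnit a) {η : ℝ} (hη : 0 < η) :
    Tendsto (fun P : ℝ => bprT q a P ((1 + η) * P) / P) atTop (𝓝 (η * (q.totient : ℝ)⁻¹)) := by
  have h := Pool.Agent.Lib_helper90.PNT.pnt_residueClass ha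
  set φ : ℝ := (q.totient : ℝ)⁻¹ with hφ
  set R : ℕ → ℝ := vonMangoldt.residueClass a with hR
  set A : ℝ → ℝ := fun x => ∑ k ∈ Finset.Icc 1 ⌊x⌋₊, R k with hA
  obtain ⟨C, hC⟩ := Chebyshev.psi_sub_theta_le_mul_sqrt
  have h1 : Tendsto (fun P : ℝ => A ((1 + η) * P) / P) atTop (𝓝 ((1 + η) * φ)) := by
    have h2 : Tendsto (fun P : ℝ => (1 + η) * P) atTop atTop :=
      tendsto_id.const_mul_atTop (by linarith)
    have h3 := (h.comp h2).const_mul (1 + η)
    refine h3.congr' ?_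
    filter_upwards [eventually_gt_atTop (0 : ℝ)] with P hP
    simp only [Function.comp]
    rw [hA]
    field_simp
  have h2 : Tendsto (fun P : ℝ => A ((1 + η) * P) / P - A P / P) atTop (𝓝 (η * φ)) := by
    have := h1.sub h
    have e : (1 + η) * φ - φ = η * φ := by ring
    rwa [e] at this
  have h3 : Tendsto (fun P : ℝ => A ((1 + η) * P) / P - A P / P -
      C * Real.sqrt ((1 + η) * P) / P) atTop (𝓝 (η * φ)) := by
    have := h2.sub (bpr_sqrt C η hη)
    rwa [sub_zero] at this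
  -- the key identity
  have key : ∀ t : ℝ, 1 ≤ t → bprT q a t ((1 + η) * t) ≤ A ((1 + η) * t) - A t ∧
      A ((1 + η) * t) - A t ≤ bprT q a t ((1 + η) * t) + C * Real.sqrt ((1 + η) * t) := by
    intro t ht
    have hle : t ≤ (1 + η) * t := by nlinarith
    have hfl : ⌊t⌋₊ ≤ ⌊(1 + η) * t⌋₊ := Nat.floor_le_floor hle
    have hsplit : A ((1 + η) * t) - A t = ∑ k ∈ Finset.Ioc ⌊t⌋₊ ⌊(1 + η) * t⌋₊, R k := by
      simp only [hA]
      rw [sub_eq_iff_eq_add, ← Finset.sum_union]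
      · apply Finset.sum_congr _ (fun _ _ => rfl)
        ext k
        simp only [Finset.mem_union, Finset.mem_Ioc, Finset.mem_Icc]
        omega
      · rw [Finset.disjoint_left]
        intro k
        simp only [Finset.mem_Ioc, Finset.mem_Icc]
        omega
    rw [hsplit, ← Finset.sum_filter_add_sum_filter_not _ (fun k : ℕ => k.Prime)]
    have hp1 : ∑ k ∈ (Finset.Ioc ⌊t⌋₊ ⌊(1 + η) * t⌋₊).filter (fun k : ℕ => k.Prime), R k =
        bprT q a t ((1 + η) * t) := by
      unfold bprT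
      have hsub : (Finset.Ioc ⌊t⌋₊ ⌊(1 + η) * t⌋₊).filter
          (fun p : ℕ => p.Prime ∧ (p : ZMod q) = a) ⊆
          (Finset.Ioc ⌊t⌋₊ ⌊(1 + η) * t⌋₊).filter (fun k : ℕ => k.Prime) := by
        intro p hp
        rw [Finset.mem_filter] at hp ⊢
        exact ⟨hp.1, hp.2.1⟩
      rw [← Finset.sum_subset hsub]
      · apply Finset.sum_congr rfl
        intro p hp
        rw [Finset.mem_filter] at hp
        rw [hR]
        unfold vonMangoldt.residueClass
        rw [Set.indicator_of_mem]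
        · exact vonMangoldt_apply_prime hp.2.1
        · exact hp.2.2
      · intro p hp hnp
        rw [Finset.mem_filter] at hp hnp
        rw [hR]
        unfold vonMangoldt.residueClass
        rw [Set.indicator_of_notMem]
        intro hmem
        exact hnp ⟨hp.1, hp.2, hmem⟩
    have hp2 : ∑ k ∈ (Finset.Ioc ⌊t⌋₊ ⌊(1 + η) * t⌋₊).filter (fun k : ℕ => ¬ k.Prime), R k ≤
        C * Real.sqrt ((1 + η) * t) := by
      refine le_trans ?_ (hC ((1 + η) * t))
      rw [Chebyshev.psi_sub_theta_eq_sum_not_prime]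
      refine le_trans (Finset.sum_le_sum (fun k _ => vonMangoldt.residueClass_le a k)) ?_
      apply Finset.sum_le_sum_of_subset_of_nonneg
      · intro k hk
        simp only [Finset.mem_filter, Finset.mem_Ioc] at hk ⊢
        exact ⟨⟨by omega, hk.1.2⟩, hk.2⟩
      · intro k _ _
        exact vonMangoldt_nonneg
    have hp3 : 0 ≤ ∑ k ∈ (Finset.Ioc ⌊t⌋₊ ⌊(1 + η) * t⌋₊).filter (fun k : ℕ => ¬ k.Prime), R k :=
      Finset.sum_nonneg (fun k _ => vonMangoldt.residueClass_nonneg a k)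
    rw [hp1]
    constructor <;> linarith
  refine tendsto_of_tendsto_of_tendsto_of_le_of_le' h3 h2 ?_ ?_
  · filter_upwards [eventually_ge_atTop (1 : ℝ)] with P hP
    have hP0 : 0 < P := by linarith
    rw [← sub_div, ← sub_div]
    apply div_le_div_of_nonneg_right _ hP0.le
    linarith [(key P hP).2]
  · filter_upwards [eventually_ge_atTop (1 : ℝ)] with P hP
    have hP0 : 0 < P := by linarith
    rw [← sub_div]
    apply div_le_div_of_nonneg_right _ hP0.le
    exact (key P hP).1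

/-- the primes of the class `1` mod `q` in `(x, y]` -/
def prs (q : ℕ) (x y : ℕ) : Finset ℕ :=
  (Finset.Ioc x y).filter (fun p : ℕ => p.Prime ∧ (p : ZMod q) = 1)

/-- the dyadic block -/
theorem dyadic {q : ℕ} (hq : 0 < q) : ∃ (δ : ℝ) (k₀ : ℕ), 0 < δ ∧ ∀ k : ℕ, k₀ ≤ k →
    δ * (1 / ((k : ℝ) + 1)) ≤ ∑ p ∈ prs q (2 ^ k) (2 ^ (k + 1)), (1 : ℝ) / p := by
  have : NeZero q := ⟨hq.ne'⟩
  have h := bpr_lim (q := q) (a := 1) isUnit_one (η := 1) one_pos
  have hφ : (0 : ℝ) < (q.totient : ℝ) := by exact_mod_cast Nat.totient_pos.2 hq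
  have hφi : (0 : ℝ) < (q.totient : ℝ)⁻¹ := inv_pos.2 hφ
  have h2 := h.eventually (lt_mem_nhds (show (q.totient : ℝ)⁻¹ / 2 < 1 * (q.totient : ℝ)⁻¹ by
    linarith))
  obtain ⟨P₀, hP₀⟩ := eventually_atTop.1 h2
  obtain ⟨k₀, hk₀⟩ := exists_nat_ge P₀
  have hl2 : 0 < Real.log 2 := Real.log_pos (by norm_num)
  refine ⟨(q.totient : ℝ)⁻¹ / (4 * Real.log 2), k₀, by positivity, fun k hk => ?_⟩
  have hPk : P₀ ≤ ((2 : ℝ) ^ k) := by
    refine hk₀.trans ?_
    have : k₀ < 2 ^ k := lt_of_le_of_lt hk Nat.lt_two_pow_self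
    exact_mod_cast this.le
  have h3 := hP₀ _ hPk
  have hpos : (0 : ℝ) < 2 ^ k := by positivity
  rw [lt_div_iff₀ hpos] at h3
  have e1 : ⌊((2 : ℝ) ^ k)⌋₊ = 2 ^ k := by
    rw [show ((2 : ℝ) ^ k) = ((2 ^ k : ℕ) : ℝ) by push_cast; ring]
    exact Nat.floor_natCast _
  have e2 : ⌊(1 + 1) * ((2 : ℝ) ^ k)⌋₊ = 2 ^ (k + 1) := by
    rw [show (1 + 1) * ((2 : ℝ) ^ k) = ((2 ^ (k + 1) : ℕ) : ℝ) by push_cast; ring]
    exact Nat.floor_natCast _
  have h4 : bprT q 1 ((2 : ℝ) ^ k) ((1 + 1) * (2 : ℝ) ^ k) ≤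
      ∑ p ∈ prs q (2 ^ k) (2 ^ (k + 1)), ((2 : ℝ) ^ (k + 1) * Real.log (2 ^ (k + 1))) *
        ((1 : ℝ) / p) := by
    unfold bprT prs
    rw [e1, e2]
    apply Finset.sum_le_sum
    intro p hp
    rw [Finset.mem_filter, Finset.mem_Ioc] at hp
    have hp1 : (0 : ℝ) < p := by exact_mod_cast hp.2.1.pos
    have hp2 : (p : ℝ) ≤ 2 ^ (k + 1) := by exact_mod_cast hp.1.2
    have hp3 : Real.log p ≤ Real.log (2 ^ (k + 1)) := Real.log_le_log hp1 hp2
    have hp4 : 0 ≤ Real.log (2 ^ (k + 1)) := Real.log_nonneg (one_le_pow₀ (by norm_num))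
    have hp5 : (1 : ℝ) ≤ 2 ^ (k + 1) * (1 / p) := by
      rw [mul_one_div, le_div_iff₀ hp1]; linarith
    calc Real.log p ≤ Real.log (2 ^ (k + 1)) := hp3
      _ = Real.log (2 ^ (k + 1)) * 1 := by ring
      _ ≤ Real.log (2 ^ (k + 1)) * (2 ^ (k + 1) * (1 / p)) :=
          mul_le_mul_of_nonneg_left hp5 hp4
      _ = _ := by ring
  rw [← Finset.mul_sum] at h4
  set S := ∑ p ∈ prs q (2 ^ k) (2 ^ (k + 1)), (1 : ℝ) / p with hS
  have h5 : (q.totient : ℝ)⁻¹ / 2 * 2 ^ k ≤ (2 : ℝ) ^ (k + 1) * Real.log (2 ^ (k + 1)) * S :=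
    h3.le.trans h4
  rw [Real.log_pow] at h5
  push_cast at h5
  have hk1 : (0 : ℝ) < (k : ℝ) + 1 := by positivity
  have h6 : (q.totient : ℝ)⁻¹ ≤ 4 * Real.log 2 * (((k : ℝ) + 1) * S) := by
    have h7 : (2 : ℝ) ^ k * (q.totient : ℝ)⁻¹ ≤ 2 ^ k * (4 * Real.log 2 * (((k : ℝ) + 1) * S)) := by
      have : (2 : ℝ) ^ (k + 1) = 2 * 2 ^ k := by ring
      rw [this] at h5
      nlinarith
    exact le_of_mul_le_mul_left h7 hpos
  rw [mul_one_div, div_div, div_le_iff₀ (by positivity)]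
  nlinarith

/-- the sum of `1/p` over the primes `p ≡ 1 mod q` diverges -/
theorem diverge {q : ℕ} (hq : 0 < q) (C : ℝ) : ∃ S : Finset ℕ,
    (∀ p ∈ S, p.Prime ∧ (p : ZMod q) = 1) ∧ C ≤ ∑ p ∈ S, (1 : ℝ) / p := by
  obtain ⟨δ, k₀, hδ, hk⟩ := dyadic hq
  have h1 : ∀ m : ℕ, k₀ ≤ m → δ * ∑ k ∈ Finset.Ico k₀ m, (1 / ((k : ℝ) + 1)) ≤
      ∑ p ∈ prs q (2 ^ k₀) (2 ^ m), (1 : ℝ) / p := by
    intro m hm
    induction m, hm using Nat.le_induction with
    | base => simp [prs]
    | succ m hm ih =>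
      rw [Finset.sum_Ico_succ_top hm, mul_add]
      have e : prs q (2 ^ k₀) (2 ^ (m + 1)) =
          prs q (2 ^ k₀) (2 ^ m) ∪ prs q (2 ^ m) (2 ^ (m + 1)) := by
        unfold prs
        rw [← Finset.filter_union]
        congr 1
        rw [Finset.Ioc_union_Ioc_eq_Ioc]
        · exact Nat.pow_le_pow_right (by norm_num) hm
        · exact Nat.pow_le_pow_right (by norm_num) (by omega)
      rw [e, Finset.sum_union]
      · exact add_le_add ih (hk m hm)
      · rw [Finset.disjoint_left]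
        intro p hp hp'
        unfold prs at hp hp'
        rw [Finset.mem_filter, Finset.mem_Ioc] at hp hp'
        omega
  have h2 := Real.tendsto_sum_range_one_div_nat_succ_atTop
  obtain ⟨m, hm, hm0⟩ := ((h2.eventually_ge_atTop
    (C / δ + ∑ k ∈ Finset.range k₀, (1 / ((k : ℝ) + 1)))).and (eventually_ge_atTop k₀)).exists
  refine ⟨prs q (2 ^ k₀) (2 ^ m), fun p hp => (Finset.mem_filter.1 hp).2, ?_⟩
  refine le_trans ?_ (h1 m hm0)
  rw [Finset.sum_Ico_eq_sub _ hm0]
  have : C / δ ≤ ∑ k ∈ Finset.range m, (1 / ((k : ℝ) + 1)) -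
      ∑ k ∈ Finset.range k₀, (1 / ((k : ℝ) + 1)) := by linarith
  rw [div_le_iff₀ hδ] at this
  linarith

/-! ### The sieve -/

/-- up to finitely many, the primes `q` with `q² + c` prime lie in a proportion `κ` of the unit
classes mod `M` -/
def Good (c M : ℕ) (κ : ℝ) : Prop :=
  ∃ A : Finset (ZMod M), (∀ a ∈ A, IsUnit a) ∧ (A.card : ℝ) ≤ κ * M.totient ∧
    ∃ q₀ : ℕ, ∀ q : ℕ, q₀ ≤ q → q.Prime → (q ^ 2 + c).Prime → (q : ZMod M) ∈ A

theorem good_one (c : ℕ) : Good c 1 1 := by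
  refine ⟨{0}, ?_, by simp, 0, ?_⟩
  · intro a _
    exact isUnit_of_subsingleton a
  · intro q _ _ _
    rw [Finset.mem_singleton]
    exact Subsingleton.elim _ _

theorem Good.mono {c M : ℕ} {κ κ' : ℝ} (h : Good c M κ) (hk : κ ≤ κ') : Good c M κ' := by
  obtain ⟨A, h1, h2, h3⟩ := h
  exact ⟨A, h1, h2.trans (mul_le_mul_of_nonneg_right hk (Nat.cast_nonneg _)), h3⟩

theorem root {c ℓ : ℕ} (hc : 0 < c) (hl : ℓ.Prime) (h : (ℓ : ZMod (4 * c)) = 1) :
    ∃ r : ZMod ℓ, r ≠ 0 ∧ r ^ 2 + c = 0 := by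
  have : Fact ℓ.Prime := ⟨hl⟩
  have hc4 : 1 < 4 * c := by omega
  have h1 : ℓ % (4 * c) = 1 := by
    have h5 : ((ℓ : ℕ) : ZMod (4 * c)) = ((1 : ℕ) : ZMod (4 * c)) := by rw [h]; simp
    rw [ZMod.natCast_eq_natCast_iff] at h5
    unfold Nat.ModEq at h5
    rw [h5]
    exact Nat.mod_eq_of_lt hc4
  have h2 : ℓ % 4 = 1 := by
    have := Nat.mod_mod_of_dvd ℓ (Dvd.intro c rfl : 4 ∣ 4 * c)
    rw [← this, h1]
  have hodd : Odd ℓ := Nat.odd_iff.2 (by omega)
  have h3 : c < ℓ := by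
    by_contra hlt
    have : ℓ % (4 * c) = ℓ := Nat.mod_eq_of_lt (by omega)
    rw [this] at h1
    exact hl.one_lt.ne' h1
  have hJ : jacobiSym (-(c : ℤ)) ℓ = 1 := by
    rw [jacobiSym.mod_right _ hodd]
    have e : (-(c : ℤ)).natAbs = c := by simp
    rw [e, h1]
    simp
  have hc0 : ((c : ℕ) : ZMod ℓ) ≠ 0 := by
    intro h0
    rw [ZMod.natCast_eq_zero_iff] at h0
    exact absurd (Nat.le_of_dvd hc h0) (by omega)
  have hL : legendreSym ℓ (-(c : ℤ)) = 1 := by
    rw [jacobiSym.legendreSym.to_jacobiSym]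
    exact hJ
  have hne : ((-(c : ℤ) : ℤ) : ZMod ℓ) ≠ 0 := by
    push_cast
    exact neg_ne_zero.2 hc0
  rw [legendreSym.eq_one_iff ℓ hne] at hL
  obtain ⟨r, hr⟩ := hL
  push_cast at hr
  refine ⟨r, ?_, ?_⟩
  · rintro rfl
    rw [mul_zero] at hr
    exact hc0 (neg_eq_zero.1 hr)
  · rw [pow_two, ← hr]
    ring

theorem good_step {c M ℓ : ℕ} (hc : 0 < c) {κ : ℝ} (hκ : 0 ≤ κ) (hl : ℓ.Prime)
    (h : (ℓ : ZMod (4 * c)) = 1) (hco : M.Coprime ℓ) (hG : Good c M κ) :
    Good c (M * ℓ) (κ * (1 - 1 / ℓ)) := by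
  classical
  have : Fact ℓ.Prime := ⟨hl⟩
  have : NeZero ℓ := ⟨hl.ne_zero⟩
  obtain ⟨r, hr0, hr⟩ := root hc hl h
  obtain ⟨A, hA1, hA2, q₀, hA3⟩ := hG
  set B : Finset (ZMod ℓ) := (Finset.univ.erase 0).erase r with hB
  set e := ZMod.chineseRemainder hco with he
  have hBc : B.card = ℓ - 2 := by
    rw [hB, Finset.card_erase_of_mem, Finset.card_erase_of_mem (Finset.mem_univ _),
      Finset.card_univ, ZMod.card]
    · omega
    · rw [Finset.mem_erase]
      exact ⟨hr0, Finset.mem_univ _⟩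
  have hl2 : 2 ≤ ℓ := hl.two_le
  refine ⟨(A ×ˢ B).map e.symm.toEquiv.toEmbedding, ?_, ?_, max q₀ (ℓ + 1), ?_⟩
  · intro a ha
    rw [Finset.mem_map] at ha
    obtain ⟨⟨u, v⟩, huv, rfl⟩ := ha
    rw [Finset.mem_product] at huv
    have hv : v ≠ 0 := by
      have := huv.2
      rw [hB, Finset.mem_erase, Finset.mem_erase] at this
      exact this.2.1
    have h1 : IsUnit ((u, v) : ZMod M × ZMod ℓ) :=
      Prod.isUnit_iff.2 ⟨hA1 u huv.1, isUnit_iff_ne_zero.2 hv⟩
    exact h1.map e.symm.toRingHom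
  · rw [Finset.card_map, Finset.card_product, hBc, Nat.totient_mul hco, Nat.totient_prime hl]
    push_cast
    rw [Nat.cast_sub hl2, Nat.cast_sub (by omega : 1 ≤ ℓ)]
    have hl0 : (0 : ℝ) < ℓ := by exact_mod_cast hl.pos
    have hl1 : (2 : ℝ) ≤ ℓ := by exact_mod_cast hl2
    have h1 : ((ℓ : ℝ) - (2 : ℕ)) ≤ (1 - 1 / (ℓ : ℝ)) * ((ℓ : ℝ) - (1 : ℕ)) := by
      push_cast
      have : (1 - 1 / (ℓ : ℝ)) * ((ℓ : ℝ) - 1) = ℓ - 2 + 1 / ℓ := by
        field_simp
        ring
      rw [this]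
      have : 0 ≤ 1 / (ℓ : ℝ) := by positivity
      linarith
    have h2 : (0 : ℝ) ≤ (ℓ : ℝ) - (2 : ℕ) := by push_cast; linarith
    calc (A.card : ℝ) * ((ℓ : ℝ) - (2 : ℕ)) ≤ (κ * M.totient) * ((ℓ : ℝ) - (2 : ℕ)) :=
          mul_le_mul_of_nonneg_right hA2 h2
      _ ≤ (κ * M.totient) * ((1 - 1 / (ℓ : ℝ)) * ((ℓ : ℝ) - (1 : ℕ))) :=
          mul_le_mul_of_nonneg_left h1 (by positivity)
      _ = _ := by ring
  · intro q hq hqp hqc
    have hq1 : q₀ ≤ q := le_trans (le_max_left _ _) hq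
    have hq2 : ℓ < q := lt_of_lt_of_le (Nat.lt_succ_self ℓ) (le_trans (le_max_right _ _) hq)
    rw [Finset.mem_map]
    refine ⟨((q : ZMod M), (q : ZMod ℓ)), ?_, ?_⟩
    · rw [Finset.mem_product]
      refine ⟨hA3 q hq1 hqp hqc, ?_⟩
      rw [hB, Finset.mem_erase, Finset.mem_erase]
      refine ⟨?_, ?_, Finset.mem_univ _⟩
      · intro h0
        simp only at h0
        rw [← h0] at hr
        have h1 : ((q ^ 2 + c : ℕ) : ZMod ℓ) = 0 := by
          push_cast
          exact hr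
        rw [ZMod.natCast_eq_zero_iff] at h1
        have h2 := (Nat.prime_dvd_prime_iff_eq hl hqc).1 h1
        have : q ≤ q ^ 2 := Nat.le_self_pow (by norm_num) q
        omega
      · intro h0
        simp only at h0
        rw [ZMod.natCast_eq_zero_iff] at h0
        have h2 := (Nat.prime_dvd_prime_iff_eq hl hqp).1 h0
        omega
    · have h1 : e (q : ZMod (M * ℓ)) = ((q : ZMod M), (q : ZMod ℓ)) := by
        rw [map_natCast]
        rfl
      change e.symm ((q : ZMod M), (q : ZMod ℓ)) = _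
      rw [← h1]
      exact e.symm_apply_apply _

theorem good_prod {c : ℕ} (hc : 0 < c) (S : Finset ℕ)
    (hS : ∀ p ∈ S, p.Prime ∧ (p : ZMod (4 * c)) = 1) :
    Good c (∏ p ∈ S, p) (∏ p ∈ S, (1 - 1 / (p : ℝ))) := by
  classical
  induction S using Finset.induction_on with
  | empty => simpa using good_one c
  | insert ℓ S hℓ ih =>
    have ih' := ih (fun p hp => hS p (Finset.mem_insert_of_mem hp))
    obtain ⟨h1, h2⟩ := hS ℓ (Finset.mem_insert_self _ _)
    rw [Finset.prod_insert hℓ, Finset.prod_insert hℓ, mul_comm, mul_comm (1 - 1 / (ℓ : ℝ))]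
    refine good_step hc ?_ h1 h2 ?_ ih'
    · apply Finset.prod_nonneg
      intro p hp
      have hp1 : (1 : ℝ) ≤ p := by exact_mod_cast (hS p (Finset.mem_insert_of_mem hp)).1.one_lt.le
      have : 1 / (p : ℝ) ≤ 1 := by
        rw [div_le_one (by linarith)]; exact hp1
      linarith
    · apply Nat.Coprime.prod_left
      intro p hp
      rw [Nat.coprime_primes (hS p (Finset.mem_insert_of_mem hp)).1 h1]
      rintro rfl
      exact hℓ hp

theorem good_small {c : ℕ} (hc : 0 < c) {ε : ℝ} (hε : 0 < ε) : ∃ M : ℕ, 0 < M ∧ Good c M ε := by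
  obtain ⟨S, hS, hsum⟩ := diverge (q := 4 * c) (by omega) (-Real.log ε)
  refine ⟨∏ p ∈ S, p, Finset.prod_pos (fun p hp => (hS p hp).1.pos), (good_prod hc S hS).mono ?_⟩
  have h1 : ∏ p ∈ S, (1 - 1 / (p : ℝ)) ≤ ∏ p ∈ S, Real.exp (-(1 / (p : ℝ))) := by
    apply Finset.prod_le_prod
    · intro p hp
      have hp1 : (1 : ℝ) ≤ p := by exact_mod_cast (hS p hp).1.one_lt.le
      have : 1 / (p : ℝ) ≤ 1 := by
        rw [div_le_one (by linarith)]; exact hp1
      linarith
    · intro p hp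
      have := Real.add_one_le_exp (-(1 / (p : ℝ)))
      linarith
  refine h1.trans ?_
  rw [← Real.exp_sum, Finset.sum_neg_distrib]
  calc Real.exp (-∑ p ∈ S, 1 / (p : ℝ)) ≤ Real.exp (Real.log ε) :=
        Real.exp_le_exp.2 (by linarith)
    _ = ε := Real.exp_log hε

/-! ### Counting -/

theorem pr_prime (n : ℕ) : (pr n).Prime := Nat.prime_nth_prime _

theorem pr_strictMono {m n : ℕ} (hm : 1 ≤ m) (h : m < n) : pr m < pr n := by
  unfold pr
  exact Nat.nth_strictMono Nat.infinite_setOfPred_prime (by omega)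

theorem pr_inj {m n : ℕ} (hm : 1 ≤ m) (hn : 1 ≤ n) (h : pr m = pr n) : m = n := by
  rcases lt_trichotomy m n with h1 | h1 | h1
  · exact absurd h (pr_strictMono hm h1).ne
  · exact h1
  · exact absurd h (pr_strictMono hn h1).ne'

theorem pr_mono {m n : ℕ} (hm : 1 ≤ m) (h : m ≤ n) : pr m ≤ pr n := by
  rcases h.lt_or_eq with h | rfl
  · exact (pr_strictMono hm h).le
  · exact le_rfl

theorem pi_pr {n : ℕ} (hn : 1 ≤ n) : Nat.primeCounting (pr n) = n := by
  unfold pr Nat.primeCounting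
  rw [Nat.primeCounting', Nat.count_nth_succ_of_infinite Nat.infinite_setOfPred_prime]
  omega

theorem pr_tendsto : Tendsto pr atTop atTop := by
  rw [tendsto_atTop_atTop]
  intro b
  refine ⟨b + 1, fun n hn => ?_⟩
  have h1 := Nat.add_two_le_nth_prime (n - 1)
  unfold pr
  omega

/-- the indices `n ≤ N` for which `prime(n)² + c` is prime -/
noncomputable def bad (c N : ℕ) : Finset ℕ :=
  (Finset.Icc 1 N).filter (fun n => (pr n ^ 2 + c).Prime)

theorem bad_card {c M : ℕ} {A : Finset (ZMod M)} {q₀ : ℕ}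
    (hA : ∀ q : ℕ, q₀ ≤ q → q.Prime → (q ^ 2 + c).Prime → (q : ZMod M) ∈ A) {N : ℕ} :
    ((bad c N).card : ℝ) * Real.log (pr N) ≤ q₀ * Real.log (pr N) +
      Real.sqrt (pr N) * Real.log (pr N) +
      2 * ∑ a ∈ A, ∑ k ∈ Finset.Icc 1 ⌊((pr N : ℕ) : ℝ)⌋₊, vonMangoldt.residueClass a k := by
  classical
  set x := pr N with hx
  have hx2 : 2 ≤ x := (pr_prime N).two_le
  have hx0 : (0 : ℝ) < x := by exact_mod_cast (by omega : 0 < x)
  have hlog : 0 < Real.log x := Real.log_pos (by exact_mod_cast (by omega : 1 < x))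
  set G : Finset ℕ := (Finset.Icc 1 x).filter
    (fun q => q.Prime ∧ (q : ZMod M) ∈ A ∧ Nat.sqrt x < q) with hG
  have h1 : (bad c N).card ≤ q₀ + Nat.sqrt x + G.card := by
    have h2 : ((bad c N).image pr).card = (bad c N).card := by
      apply Finset.card_image_of_injOn
      intro m hm n hn hmn
      have hm' := Finset.mem_coe.1 hm
      have hn' := Finset.mem_coe.1 hn
      unfold bad at hm' hn'
      rw [Finset.mem_filter, Finset.mem_Icc] at hm' hn'
      exact pr_inj hm'.1.1 hn'.1.1 hmn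
    rw [← h2]
    have h3 : (bad c N).image pr ⊆ (Finset.range q₀ ∪ Finset.Icc 1 (Nat.sqrt x)) ∪ G := by
      intro q hq
      rw [Finset.mem_image] at hq
      obtain ⟨n, hn, rfl⟩ := hq
      unfold bad at hn
      rw [Finset.mem_filter, Finset.mem_Icc] at hn
      have hle : pr n ≤ x := pr_mono hn.1.1 hn.1.2
      have hpos : 0 < pr n := (pr_prime n).pos
      rw [Finset.mem_union, Finset.mem_union, Finset.mem_range, Finset.mem_Icc, hG,
        Finset.mem_filter, Finset.mem_Icc]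
      by_cases h4 : pr n < q₀
      · exact Or.inl (Or.inl h4)
      · by_cases h5 : pr n ≤ Nat.sqrt x
        · exact Or.inl (Or.inr ⟨hpos, h5⟩)
        · exact Or.inr ⟨⟨hpos, hle⟩, pr_prime n, hA _ (by omega) (pr_prime n) hn.2, by omega⟩
    refine (Finset.card_le_card h3).trans ?_
    refine (Finset.card_union_le _ _).trans ?_
    refine Nat.add_le_add_right ?_ _
    refine (Finset.card_union_le _ _).trans ?_
    simp
  have h2 : (G.card : ℝ) * Real.log x ≤
      2 * ∑ a ∈ A, ∑ k ∈ Finset.Icc 1 ⌊(x : ℝ)⌋₊, vonMangoldt.residueClass a k := by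
    have h3 : (G.card : ℝ) * Real.log x ≤ ∑ q ∈ G, 2 * Real.log q := by
      rw [← nsmul_eq_mul]
      apply Finset.card_nsmul_le_sum
      intro q hq
      rw [hG, Finset.mem_filter] at hq
      have h4 : x < q ^ 2 := by
        have h5 := Nat.lt_succ_sqrt x
        have h6 : Nat.sqrt x + 1 ≤ q := hq.2.2.2
        calc x < (Nat.sqrt x).succ * (Nat.sqrt x).succ := h5
          _ ≤ q * q := Nat.mul_le_mul h6 h6
          _ = q ^ 2 := by ring
      have h5 : Real.log x ≤ Real.log ((q : ℝ) ^ 2) := by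
        apply Real.log_le_log hx0
        exact_mod_cast h4.le
      rwa [Real.log_pow] at h5
    refine h3.trans ?_
    rw [← Finset.mul_sum]
    refine mul_le_mul_of_nonneg_left ?_ (by norm_num)
    rw [Finset.sum_comm, Nat.floor_natCast]
    have hsub : G ⊆ Finset.Icc 1 x := Finset.filter_subset _ _
    refine le_trans ?_ (Finset.sum_le_sum_of_subset_of_nonneg hsub ?_)
    · apply Finset.sum_le_sum
      intro q hq
      rw [hG, Finset.mem_filter] at hq
      have h4 : Real.log q = vonMangoldt.residueClass ((q : ℕ) : ZMod M) q := by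
        unfold vonMangoldt.residueClass
        rw [Set.indicator_of_mem]
        · exact (vonMangoldt_apply_prime hq.2.1).symm
        · rfl
      rw [h4]
      exact Finset.single_le_sum
        (f := fun a => vonMangoldt.residueClass a q)
        (fun a _ => vonMangoldt.residueClass_nonneg a q) hq.2.2.1
    · intro k _ _
      exact Finset.sum_nonneg (fun a _ => vonMangoldt.residueClass_nonneg a k)
  have h3 : ((Nat.sqrt x : ℕ) : ℝ) ≤ Real.sqrt x := Real.nat_sqrt_le_real_sqrt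
  have h4 : ((bad c N).card : ℝ) ≤ q₀ + Nat.sqrt x + G.card := by exact_mod_cast h1
  calc ((bad c N).card : ℝ) * Real.log x ≤ (q₀ + Nat.sqrt x + G.card) * Real.log x :=
        mul_le_mul_of_nonneg_right h4 hlog.le
    _ ≤ (q₀ + Real.sqrt x + G.card) * Real.log x := by
        apply mul_le_mul_of_nonneg_right _ hlog.le
        linarith
    _ = q₀ * Real.log x + Real.sqrt x * Real.log x + G.card * Real.log x := by ring
    _ ≤ _ := by linarith

theorem log_div_lim : Tendsto (fun x : ℝ => Real.log x / x) atTop (𝓝 0) := by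
  have h := Real.isLittleO_log_id_atTop.tendsto_div_nhds_zero
  simpa using h

theorem sqrt_log_div_lim :
    Tendsto (fun x : ℝ => Real.sqrt x * Real.log x / x) atTop (𝓝 0) := by
  have h := (isLittleO_log_rpow_atTop (r := 1 / 2) (by norm_num)).tendsto_div_nhds_zero
  refine h.congr' ?_
  filter_upwards [eventually_gt_atTop (0 : ℝ)] with x hx
  rw [← Real.sqrt_eq_rpow]
  have h1 : 0 < Real.sqrt x := Real.sqrt_pos.2 hx
  have h2 : Real.sqrt x * Real.sqrt x = x := Real.mul_self_sqrt hx.le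
  field_simp
  rw [pow_two, h2]

theorem bad_lim {c : ℕ} (hc : 0 < c) :
    Tendsto (fun N : ℕ => ((bad c N).card : ℝ) / N) atTop (𝓝 0) := by
  rw [tendsto_order]
  constructor
  · intro a ha
    exact Eventually.of_forall (fun N => lt_of_lt_of_le ha (by positivity))
  · intro ε hε
    obtain ⟨M, hM, A, hA1, hA2, q₀, hA3⟩ := good_small hc (show 0 < ε / 4 by positivity)
    have : NeZero M := ⟨hM.ne'⟩
    have hφ : (0 : ℝ) < (M.totient : ℝ) := by exact_mod_cast Nat.totient_pos.2 hM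
    -- the numerator
    have hx : Tendsto (fun N : ℕ => ((pr N : ℕ) : ℝ)) atTop atTop :=
      tendsto_natCast_atTop_atTop.comp pr_tendsto
    have h1 : Tendsto (fun x : ℝ => (q₀ : ℝ) * (Real.log x / x) + Real.sqrt x * Real.log x / x +
        2 * ∑ a ∈ A, (∑ k ∈ Finset.Icc 1 ⌊x⌋₊, vonMangoldt.residueClass a k) / x) atTop
        (𝓝 ((q₀ : ℝ) * 0 + 0 + 2 * ∑ a ∈ A, ((M.totient : ℝ))⁻¹)) := by
      refine ((log_div_lim.const_mul _).add sqrt_log_div_lim).add (Tendsto.const_mul _ ?_)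
      exact tendsto_finsetSum _
        (fun a ha => Pool.Agent.Lib_helper90.PNT.pnt_residueClass (hA1 a ha))
    have h2 := (h1.comp hx).div
      (Pool.Agent.Lib_helper90.PNT.tendsto_pi_mul_log_div.comp hx) one_ne_zero
    have h3 : ((q₀ : ℝ) * 0 + 0 + 2 * ∑ a ∈ A, ((M.totient : ℝ))⁻¹) / 1 < ε := by
      rw [Finset.sum_const, nsmul_eq_mul, div_one, mul_zero, zero_add, zero_add]
      have : (A.card : ℝ) * ((M.totient : ℝ))⁻¹ ≤ ε / 4 := by
        rw [← div_eq_mul_inv, div_le_iff₀ hφ]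
        exact hA2
      linarith
    have h4 := h2.eventually (gt_mem_nhds h3)
    filter_upwards [h4, eventually_ge_atTop 1] with N hN hN1
    refine lt_of_le_of_lt ?_ hN
    simp only [Pi.div_apply, Function.comp]
    have hx2 : 2 ≤ pr N := (pr_prime N).two_le
    have hx0 : (0 : ℝ) < pr N := by exact_mod_cast (by omega : 0 < pr N)
    have hlog : 0 < Real.log (pr N) := Real.log_pos (by exact_mod_cast (by omega : 1 < pr N))
    have hN0 : (0 : ℝ) < N := by exact_mod_cast hN1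
    have h5 := bad_card (c := c) (M := M) (N := N) hA3
    have h6 : (Nat.primeCounting ⌊((pr N : ℕ) : ℝ)⌋₊ : ℝ) = N := by
      rw [Nat.floor_natCast, pi_pr hN1]
    rw [h6, div_le_div_iff₀ hN0 (by positivity)]
    have h7 : ((bad c N).card : ℝ) * (N * Real.log (pr N) / pr N) =
        (((bad c N).card : ℝ) * Real.log (pr N)) * (N / pr N) := by ring
    rw [h7]
    refine (mul_le_mul_of_nonneg_right h5 (by positivity)).trans (le_of_eq ?_)
    rw [← Finset.sum_div]
    field_simp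

/-! ### The result -/

theorem eq_c {i n : ℕ} : pr i ^ 2 + pr n ^ 2 - 1 = pr n ^ 2 + (pr i ^ 2 - 1) := by
  have : 1 ≤ pr i ^ 2 := Nat.one_le_pow _ _ (pr_prime i).pos
  omega

/-- the indices `n ≤ N` such that some `i ≤ K` makes `prime(i)² + prime(n)² - 1` prime -/
noncomputable def hit (K N : ℕ) : Finset ℕ := by
  classical
  exact (Finset.Icc 1 N).filter
    (fun n => ∃ i, 1 ≤ i ∧ i ≤ K ∧ (pr i ^ 2 + pr n ^ 2 - 1).Prime)

theorem hit_lim (K : ℕ) : Tendsto (fun N : ℕ => ((hit K N).card : ℝ) / N) atTop (𝓝 0) := by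
  classical
  have h1 : Tendsto (fun N : ℕ => ∑ i ∈ Finset.Icc 1 K, ((bad (pr i ^ 2 - 1) N).card : ℝ) / N)
      atTop (𝓝 (∑ i ∈ Finset.Icc 1 K, (0 : ℝ))) := by
    apply tendsto_finsetSum
    intro i _
    apply bad_lim
    have h2 : 2 ≤ pr i := (pr_prime i).two_le
    have h3 : 2 ^ 2 ≤ pr i ^ 2 := Nat.pow_le_pow_left h2 2
    omega
  rw [Finset.sum_const_zero] at h1
  refine squeeze_zero (fun N => by positivity) (fun N => ?_) h1
  rw [← Finset.sum_div]
  apply div_le_div_of_nonneg_right _ (Nat.cast_nonneg _)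
  have h2 : hit K N ⊆ (Finset.Icc 1 K).biUnion (fun i => bad (pr i ^ 2 - 1) N) := by
    intro n hn
    unfold hit at hn
    rw [Finset.mem_filter] at hn
    obtain ⟨hn1, i, hi1, hi2, hi3⟩ := hn
    rw [Finset.mem_biUnion]
    refine ⟨i, Finset.mem_Icc.2 ⟨hi1, hi2⟩, ?_⟩
    unfold bad
    rw [Finset.mem_filter]
    rw [eq_c] at hi3
    exact ⟨hn1, hi3⟩
  have h3 := (Finset.card_le_card h2).trans Finset.card_biUnion_le
  exact_mod_cast h3

/-- diagonal choice of the bound `ω` -/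
theorem diag (D : ℕ → ℕ → Finset ℕ) (hD : ∀ K, Tendsto (fun N : ℕ => ((D K N).card : ℝ) / N)
    atTop (𝓝 0)) : ∃ ω : ℕ → ℕ, Monotone ω ∧ Tendsto ω atTop atTop ∧
      Tendsto (fun N : ℕ => ((D (ω N) N).card : ℝ) / N) atTop (𝓝 0) := by
  have h1 : ∀ K : ℕ, ∃ N₀ : ℕ, ∀ N, N₀ ≤ N → ((D K N).card : ℝ) / N ≤ 1 / ((K : ℝ) + 1) := by
    intro K
    have h2 := (hD K).eventually (gt_mem_nhds (show (0 : ℝ) < 1 / ((K : ℝ) + 1) by positivity))
    obtain ⟨N₀, hN₀⟩ := eventually_atTop.1 h2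
    exact ⟨N₀, fun N hN => (hN₀ N hN).le⟩
  choose T hT using h1
  -- a strictly growing threshold
  set T' : ℕ → ℕ := fun K => ∑ j ∈ Finset.range (K + 1), T j with hT'
  have hTle : ∀ K, T K ≤ T' K := by
    intro K
    exact Finset.single_le_sum (f := T) (fun j _ => Nat.zero_le _)
      (Finset.mem_range.2 (Nat.lt_succ_self K))
  have hmono : Monotone T' := by
    intro a b hab
    apply Finset.sum_le_sum_of_subset
    exact Finset.range_subset_range.2 (by omega)
  classical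
  set ω : ℕ → ℕ := fun N => Nat.findGreatest (fun K => T' K ≤ N) N with hω
  have hω1 : Monotone ω := by
    intro a b hab
    exact Nat.findGreatest_mono (fun K hK => le_trans hK hab) hab
  have hω2 : Tendsto ω atTop atTop := by
    rw [tendsto_atTop_atTop]
    intro b
    refine ⟨max b (T' b), fun N hN => ?_⟩
    exact Nat.le_findGreatest (le_trans (le_max_left _ _) hN) (le_trans (le_max_right _ _) hN)
  refine ⟨ω, hω1, hω2, ?_⟩
  have h3 : Tendsto (fun N : ℕ => 1 / (((ω N : ℕ) : ℝ) + 1)) atTop (𝓝 0) :=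
    tendsto_one_div_add_atTop_nhds_zero_nat.comp hω2
  refine squeeze_zero' (Eventually.of_forall fun N => by positivity) ?_ h3
  filter_upwards [eventually_ge_atTop (T' 0)] with N hN
  apply hT
  refine le_trans (hTle _) ?_
  exact Nat.findGreatest_spec (P := fun K => T' K ≤ N) (Nat.zero_le N) hN

/-- **Result.** With `prime(i)` the `i`-th prime, there is a function `ω` tending to infinity such
that for almost all `n` (all `n` outside a set of natural density `0`) the number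
`prime(i)² + prime(n)² - 1` is composite for every index `1 ≤ i ≤ ω(n)`, prime or not. -/
theorem result : ∃ ω : ℕ → ℕ, Tendsto ω atTop atTop ∧
    Tendsto (fun N : ℕ => (Nat.card {n : ℕ // 1 ≤ n ∧ n ≤ N ∧
      ∃ i, 1 ≤ i ∧ i ≤ ω n ∧ (pr i ^ 2 + pr n ^ 2 - 1).Prime} : ℝ) / N) atTop (𝓝 0) := by
  classical
  obtain ⟨ω, h1, h2, h3⟩ := diag hit hit_lim
  refine ⟨ω, h2, squeeze_zero (fun N => by positivity) (fun N => ?_) h3⟩
  apply div_le_div_of_nonneg_right _ (Nat.cast_nonneg _)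
  have h4 : Nat.card {n : ℕ // 1 ≤ n ∧ n ≤ N ∧
      ∃ i, 1 ≤ i ∧ i ≤ ω n ∧ (pr i ^ 2 + pr n ^ 2 - 1).Prime} ≤ (hit (ω N) N).card := by
    have h5 := Nat.card_le_card_of_injective
      (fun n : {n : ℕ // 1 ≤ n ∧ n ≤ N ∧
        ∃ i, 1 ≤ i ∧ i ≤ ω n ∧ (pr i ^ 2 + pr n ^ 2 - 1).Prime} =>
        (⟨n.1, by
          obtain ⟨n, hn1, hn2, i, hi1, hi2, hi3⟩ := n
          unfold hit
          rw [Finset.mem_filter, Finset.mem_Icc]
          exact ⟨⟨hn1, hn2⟩, i, hi1, hi2.trans (h1 hn2), hi3⟩⟩ : {n : ℕ // n ∈ hit (ω N) N}))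
      (by
        intro a b hab
        have h6 := congrArg Subtype.val hab
        exact Subtype.ext h6)
    refine h5.trans (le_of_eq ?_)
    simp
  exact_mod_cast h4

end Pool.Agent.Results.MP_2ce44c_nt.AlmostAll
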